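import Pool.Agent.Lib.MP_b1a3a4_al.MVS.Interfaces

/-!
# Final form of the main theorem (first form), with possibly non-full subgroups
-/

set_option linter.all false

namespace Pool.Agent.Lib.MP_b1a3a4_al.MVS.H45

open Finsupp

/-- Final statement. -/
def FinalStatement : Prop :=
  ∀ (m n : ℕ), 2 ≤ n → n ≤ m → ∀ (L : Fin m → Type) [∀ i, Group (L i)]
    (S : Subgroup (∀ i, L i)), FPn ℤ S n → ∀ (I : Finset (Fin m)),
    (∀ s ∈ S, (∀ i ∈ I, s i = 1) → s = 1) →
    (∀ J : Finset (Fin m), J ⊆ I → J.card = n → (S.map (projJ L J)).FiniteIndex) →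
    ∀ χ : S →* Multiplicative ℝ, χ ≠ 1 →
    (∀ J : Finset (Fin m), J.card = n →
      (fun s : S => projJ L J (s : ∀ i, L i)) '' (posSub χ : Set S) =
        Set.range (fun s : S => projJ L J (s : ∀ i, L i))) →
    FPn ℤ (posSub χ) n ∧ FPn ℚ (posSub χ) n

/-- reindexing of products over a finset of a finset -/
def reidx {m : ℕ} (L : Fin m → Type) [∀ i, Group (L i)] (I : Finset (Fin m))
    (J : Finset I) : (∀ j : (J.map (Function.Embedding.subtype _) : Finset (Fin m)), L j) ≃*
      (∀ j : J, L (j : I)) where
  toFun x j := x ⟨(j : I), Finset.mem_map.2 ⟨j, j.2, rfl⟩⟩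
  invFun y j := y ⟨⟨j.1, by
      obtain ⟨i, -, h⟩ := Finset.mem_map.1 j.2
      rw [← h]; exact i.2⟩, by
      obtain ⟨i, hi, h⟩ := Finset.mem_map.1 j.2
      have : (⟨j.1, by rw [← h]; exact i.2⟩ : I) = i := by ext1; exact h.symm
      rw [this]; exact hi⟩
  left_inv _ := rfl
  right_inv _ := rfl
  map_mul' _ _ := rfl

theorem final (h1 : Top1Statement) (h2 : FpisoStatement) (h3 : FpqStatement) : FinalStatement := by
  intro m n hn hnm L _ S hS I hI hVS χ hχ hcond
  suffices h : FPn ℤ (posSub χ) n from ⟨h, h3 _ n h⟩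
  -- an element of negative value
  obtain ⟨s₀, hs₀⟩ : ∃ s : S, ¬ (1 ≤ χ s) := by
    by_contra hcon
    push Not at hcon
    apply hχ
    ext1 s
    refine le_antisymm ?_ (hcon s)
    have := hcon s⁻¹
    rw [map_inv] at this
    exact one_le_inv'.1 this
  by_cases hI' : n ≤ I.card
  · -- the projection to `I`
    let LI : I → Type := fun i => L i
    let SI : Subgroup (∀ i : I, LI i) := S.map (projJ L I)
    let f : S →* SI := (projJ L I).subgroupMap S
    have hf : Function.Bijective f := by
      refine ⟨?_, (projJ L I).subgroupMap_surjective S⟩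
      rw [injective_iff_map_eq_one]
      intro s hs
      have h1 : projJ L I (s : ∀ i, L i) = 1 := congrArg Subtype.val hs
      ext1
      exact hI s s.2 (fun i hi => congrFun h1 ⟨i, hi⟩)
    let e : S ≃* SI := MulEquiv.ofBijective f hf
    let χ' : Chr SI := MonoidHom.toAdditiveLeft (χ.comp e.symm.toMonoidHom)
    have hval : ∀ s : SI, val χ' s = Multiplicative.toAdd (χ (e.symm s)) := fun _ => rfl
    have hval' : ∀ s : S, val χ' (e s) = Multiplicative.toAdd (χ s) := by
      intro s; rw [hval, e.symm_apply_apply]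
    have hes : ∀ (s : S) (i : I), (e s : ∀ i : I, LI i) i = (s : ∀ i, L i) i := fun _ _ => rfl
    have key : FPn ℤ (posMon χ') n := by
      refine h1 ℤ n hn I LI SI (by simpa using hI') (h2 ℤ S SI n e hS) ?_ χ' ?_ ?_
      · intro J hJ
        have h4 : SI.map (projJ LI J) =
            (S.map (projJ L (J.map (Function.Embedding.subtype _)))).map
              (reidx L I J).toMonoidHom := by
          rw [Subgroup.map_map, Subgroup.map_map]
          rfl
        rw [h4]
        have h5 := hVS (J.map (Function.Embedding.subtype _)) (by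
          intro i hi
          obtain ⟨j, -, rfl⟩ := Finset.mem_map.1 hi
          exact j.2) (by simpa using hJ)
        constructor
        rw [show ((S.map (projJ L (J.map (Function.Embedding.subtype _)))).map
          (reidx L I J).toMonoidHom).index =
          (S.map (projJ L (J.map (Function.Embedding.subtype _)))).index from
          Subgroup.index_map_equiv _ (reidx L I J)]
        exact h5.index_ne_zero
      · intro h
        apply hs₀
        have h6 := hval' s₀
        rw [h] at h6
        have h7 : Multiplicative.toAdd (χ s₀) = 0 := h6.symm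
        have h8 : χ s₀ = 1 := h7
        exact le_of_eq h8.symm
      · intro J hJ s
        obtain ⟨s, rfl⟩ := e.surjective s
        have h6 := hcond (J.map (Function.Embedding.subtype _)) (by simpa using hJ)
        have h7 : projJ L (J.map (Function.Embedding.subtype _)) (s : ∀ i, L i) ∈
            (fun s : S => projJ L (J.map (Function.Embedding.subtype _)) (s : ∀ i, L i)) ''
              (posSub χ : Set S) := by
          rw [h6]; exact ⟨s, rfl⟩
        obtain ⟨s', hs', hs''⟩ := h7
        refine ⟨e s', ?_, ?_⟩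
        · rw [hval']; exact hs'
        · intro j hj
          rw [hes, hes]
          exact congrFun hs'' ⟨j, Finset.mem_map.2 ⟨j, hj, rfl⟩⟩
    refine h2 ℤ (posMon χ') (posSub χ) n ?_ key
    exact
      { toFun := fun s => ⟨e.symm s.1, s.2⟩
        invFun := fun s => ⟨e s.1, by
          show 0 ≤ val χ' (e s.1)
          rw [hval']; exact s.2⟩
        left_inv := fun s => by ext1; exact e.apply_symm_apply s.1
        right_inv := fun s => by ext1; exact e.symm_apply_apply s.1
        map_mul' := fun s s' => by ext1; exact map_mul e.symm s.1 s'.1 }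
  · -- there is no such character
    exfalso
    obtain ⟨J, hIJ, hJ⟩ := Finset.exists_superset_card_eq (s := I) (n := n)
      (by omega) (by simpa using hnm)
    have h6 := hcond J hJ
    have h7 : projJ L J (s₀ : ∀ i, L i) ∈
        (fun s : S => projJ L J (s : ∀ i, L i)) '' (posSub χ : Set S) := by
      rw [h6]; exact ⟨s₀, rfl⟩
    obtain ⟨s', hs', hs''⟩ := h7
    have h8 : s' = s₀ := by
      have h9 : ((s'⁻¹ * s₀ : S) : ∀ i, L i) = 1 := by
        refine hI _ (s'⁻¹ * s₀).2 (fun i hi => ?_)
        have h10 : (s' : ∀ i, L i) i = (s₀ : ∀ i, L i) i := congrFun hs'' ⟨i, hIJ hi⟩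
        show ((s' : ∀ i, L i) i)⁻¹ * (s₀ : ∀ i, L i) i = 1
        rw [h10, inv_mul_cancel]
      have h11 : s'⁻¹ * s₀ = 1 := by ext1; exact h9
      exact (inv_mul_eq_one.1 h11)
    rw [h8] at hs'
    exact hs₀ hs'

end Pool.Agent.Lib.MP_b1a3a4_al.MVS.H45
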