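import Pool.Agent.Lib.MP_b1a3a4_al.MVS.Interfaces

/-!
# Module STEP (6.3) of project MVS
-/

set_option linter.all false

namespace Pool.Agent.Lib.MP_b1a3a4_al.MVS.H45

open Finsupp

section extend

variable {G A : Type} [Group G] [CommGroup A] (N : Subgroup G) (t : G)

lemma conj_zpow_mem (hN : ∀ n ∈ N, t * n * t⁻¹ ∈ N) (hN' : ∀ n ∈ N, t⁻¹ * n * t ∈ N) (k : ℤ) :
    ∀ n ∈ N, t ^ k * n * (t ^ k)⁻¹ ∈ N := by
  induction k using Int.induction_on with
  | zero => intro n hn; simpa using hn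
  | succ k ih =>
    intro n hn
    have h1 : t ^ ((k : ℤ) + 1) * n * (t ^ ((k : ℤ) + 1))⁻¹ =
        t ^ (k : ℤ) * (t * n * t⁻¹) * (t ^ (k : ℤ))⁻¹ := by
      rw [zpow_add, zpow_one, mul_inv_rev]
      group
    rw [h1]
    exact ih _ (hN n hn)
  | pred k ih =>
    intro n hn
    have h1 : t ^ (-(k : ℤ) - 1) * n * (t ^ (-(k : ℤ) - 1))⁻¹ =
        t ^ (-(k : ℤ)) * (t⁻¹ * n * t) * (t ^ (-(k : ℤ)))⁻¹ := by
      rw [zpow_sub, zpow_one, mul_inv_rev, inv_inv]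
      group
    rw [h1]
    exact ih _ (hN' n hn)

/-- Extension of homomorphisms to a cyclic extension. -/
theorem extend_hom (hN : ∀ n ∈ N, t * n * t⁻¹ ∈ N) (hN' : ∀ n ∈ N, t⁻¹ * n * t ∈ N)
    (hg : ∀ g : G, ∃ n ∈ N, ∃ k : ℤ, g = n * t ^ k) (f : N →* A)
    (hf : ∀ n (hn : n ∈ N), f ⟨t * n * t⁻¹, hN n hn⟩ = f ⟨n, hn⟩) (a : A)
    (ha : ∀ (e : ℤ) (h : t ^ e ∈ N), f ⟨t ^ e, h⟩ = a ^ e) :
    ∃ F : G →* A, (∀ n (hn : n ∈ N), F n = f ⟨n, hn⟩) ∧ F t = a := by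
  -- conjugation invariance for all powers
  have hfk : ∀ (k : ℤ) n (hn : n ∈ N),
      f ⟨t ^ k * n * (t ^ k)⁻¹, conj_zpow_mem N t hN hN' k n hn⟩ = f ⟨n, hn⟩ := by
    intro k
    induction k using Int.induction_on with
    | zero => intro n hn; congr 1; ext; simp
    | succ k ih =>
      intro n hn
      rw [← hf n hn, ← ih _ (hN n hn)]
      congr 1; ext
      simp only
      rw [zpow_add, zpow_one, mul_inv_rev]
      group
    | pred k ih =>
      intro n hn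
      have h2 : f ⟨n, hn⟩ = f ⟨t⁻¹ * n * t, hN' n hn⟩ := by
        rw [← hf _ (hN' n hn)]
        congr 1; ext; simp only; group
      rw [h2, ← ih _ (hN' n hn)]
      congr 1; ext
      simp only
      rw [zpow_sub, zpow_one, mul_inv_rev, inv_inv]
      group
  choose nn hnn kk hkk using hg
  -- well definedness
  have wd : ∀ (n : G) (hn : n ∈ N) (k : ℤ) (n' : G) (hn' : n' ∈ N) (k' : ℤ),
      n * t ^ k = n' * t ^ k' → f ⟨n, hn⟩ * a ^ k = f ⟨n', hn'⟩ * a ^ k' := by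
    intro n hn k n' hn' k' h
    have h1 : n'⁻¹ * n = t ^ (k' - k) := by
      rw [zpow_sub, eq_mul_inv_iff_mul_eq, mul_assoc, h, inv_mul_cancel_left]
    have h2 : t ^ (k' - k) ∈ N := by rw [← h1]; exact N.mul_mem (N.inv_mem hn') hn
    have h3 : f (⟨n', hn'⟩⁻¹ * ⟨n, hn⟩) = a ^ (k' - k) := by
      rw [← ha _ h2]
      congr 1; ext; exact h1
    rw [map_mul, map_inv] at h3
    have h4 : f ⟨n, hn⟩ = f ⟨n', hn'⟩ * a ^ (k' - k) := by rw [← h3]; group
    rw [h4, mul_assoc, ← zpow_add]; congr 2; ring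
  refine ⟨{ toFun := fun g => f ⟨nn g, hnn g⟩ * a ^ kk g, map_one' := ?_, map_mul' := ?_ }, ?_, ?_⟩
  · have := wd (nn 1) (hnn 1) (kk 1) 1 N.one_mem 0 (by rw [← hkk 1]; simp)
    rw [this]
    have : (⟨1, N.one_mem⟩ : N) = 1 := rfl
    rw [this, map_one]; simp
  · intro x y
    have h1 : nn (x * y) * t ^ kk (x * y) =
        (nn x * (t ^ kk x * nn y * (t ^ kk x)⁻¹)) * t ^ (kk x + kk y) := by
      rw [← hkk (x * y)]
      conv_lhs => rw [hkk x, hkk y]
      rw [zpow_add]; group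
    have h2 := wd _ (hnn (x * y)) _ _
      (N.mul_mem (hnn x) (conj_zpow_mem N t hN hN' (kk x) _ (hnn y))) _ h1
    rw [h2]
    have h3 : (⟨nn x * (t ^ kk x * nn y * (t ^ kk x)⁻¹),
        N.mul_mem (hnn x) (conj_zpow_mem N t hN hN' (kk x) _ (hnn y))⟩ : N) =
        ⟨nn x, hnn x⟩ * ⟨t ^ kk x * nn y * (t ^ kk x)⁻¹,
          conj_zpow_mem N t hN hN' (kk x) _ (hnn y)⟩ := rfl
    rw [h3, map_mul, hfk, zpow_add]
    exact mul_mul_mul_comm _ _ _ _
  · intro n hn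
    have := wd (nn n) (hnn n) (kk n) n hn 0 (by rw [← hkk n]; simp)
    simp only [MonoidHom.coe_mk, OneHom.coe_mk]
    rw [this]; simp
  · have := wd (nn t) (hnn t) (kk t) 1 N.one_mem 1 (by rw [← hkk t]; simp)
    simp only [MonoidHom.coe_mk, OneHom.coe_mk]
    rw [this]
    have : (⟨1, N.one_mem⟩ : N) = 1 := rfl
    rw [this, map_one]; simp

end extend

section step

variable {I : Type} [Fintype I] [DecidableEq I] {L : I → Type} [∀ i, Group (L i)]

lemma mulSingle_comm (i : I) (a : L i) (s : ∀ i, L i) :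
    (Pi.mulSingle i a : ∀ i, L i) * s * (Pi.mulSingle i a : ∀ i, L i)⁻¹ * s⁻¹ =
      Pi.mulSingle i (a * s i * a⁻¹ * (s i)⁻¹) := by
  ext j
  by_cases h : j = i
  · subst h; simp
  · simp [h]

lemma mem_sup_zpowers (S : Subgroup (∀ i, L i)) (t : ∀ i, L i)
    (h1 : ∀ s ∈ S, t * s * t⁻¹ ∈ S) (h2 : ∀ s ∈ S, t⁻¹ * s * t ∈ S) (x : ∀ i, L i)
    (hx : x ∈ S ⊔ Subgroup.zpowers t) : ∃ s ∈ S, ∃ k : ℤ, x = s * t ^ k := by
  let T : Subgroup (∀ i, L i) :=
    { carrier := {x | ∃ s ∈ S, ∃ k : ℤ, x = s * t ^ k}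
      one_mem' := ⟨1, S.one_mem, 0, by simp⟩
      mul_mem' := by
        rintro a b ⟨s, hs, k, rfl⟩ ⟨s', hs', k', rfl⟩
        refine ⟨s * (t ^ k * s' * (t ^ k)⁻¹), S.mul_mem hs (conj_zpow_mem S t h1 h2 k _ hs'),
          k + k', ?_⟩
        rw [zpow_add]; group
      inv_mem' := by
        rintro a ⟨s, hs, k, rfl⟩
        refine ⟨t ^ (-k) * s⁻¹ * (t ^ (-k))⁻¹, conj_zpow_mem S t h1 h2 (-k) _ (S.inv_mem hs),
          -k, ?_⟩
        rw [mul_inv_rev]; group }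
  have hT : S ⊔ Subgroup.zpowers t ≤ T := by
    refine sup_le (fun s hs => ⟨s, hs, 0, by simp⟩) ?_
    rw [Subgroup.zpowers_le]
    exact ⟨1, S.one_mem, 1, by simp⟩
  exact hT hx

/-- the group theory of the step -/
structure StepData (S : Subgroup (∀ i, L i)) (t : ∀ i, L i) : Prop where
  n1 : ∀ s ∈ S, t * s * t⁻¹ ∈ S
  n2 : ∀ s ∈ S, t⁻¹ * s * t ∈ S

lemma stepData (S : Subgroup (∀ i, L i)) (i : I) (t₀ : L i) (ht₀ : t₀ ∈ pr S i)
    (hc : ∀ x ∈ pr S i, t₀ * x * t₀⁻¹ * x⁻¹ ∈ nr S i) :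
    StepData S (Pi.mulSingle i t₀) := by
  have hpr : ∀ s ∈ S, s i ∈ pr S i := fun s hs => ⟨s, hs, rfl⟩
  have hnorm : ∀ n ∈ nr S i, ∀ y ∈ pr S i, y * n * y⁻¹ ∈ nr S i := by
    rintro n hn y ⟨s, hs, rfl⟩
    have : (Pi.mulSingle i (s i * n * (s i)⁻¹) : ∀ i, L i) =
        s * (Pi.mulSingle i n : ∀ i, L i) * s⁻¹ := by
      ext j
      by_cases h : j = i
      · subst h; simp
      · simp [h]
    show (Pi.mulSingle i (s i * n * (s i)⁻¹) : ∀ i, L i) ∈ S
    rw [this]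
    exact S.mul_mem (S.mul_mem hs hn) (S.inv_mem hs)
  constructor
  · intro s hs
    have h := mulSingle_comm i t₀ s
    have h1 : (Pi.mulSingle i t₀ : ∀ i, L i) * s * (Pi.mulSingle i t₀ : ∀ i, L i)⁻¹ =
        Pi.mulSingle i (t₀ * s i * t₀⁻¹ * (s i)⁻¹) * s := by rw [← h]; group
    rw [h1]
    exact S.mul_mem (hc _ (hpr s hs)) hs
  · intro s hs
    have h := mulSingle_comm i t₀⁻¹ s
    rw [inv_inv] at h
    have h1 : (Pi.mulSingle i t₀ : ∀ i, L i)⁻¹ * s * (Pi.mulSingle i t₀ : ∀ i, L i) =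
        Pi.mulSingle i (t₀⁻¹ * s i * t₀ * (s i)⁻¹) * s := by
      rw [← h]
      have h0 : (Pi.mulSingle i t₀⁻¹ : ∀ i, L i) = (Pi.mulSingle i t₀ : ∀ i, L i)⁻¹ := by
        ext j
        by_cases h : j = i
        · subst h; simp
        · simp [h]
      rw [h0]; group
    rw [h1]
    refine S.mul_mem ?_ hs
    have h2 : t₀⁻¹ * s i * t₀ * (s i)⁻¹ =
        t₀⁻¹ * (t₀ * s i * t₀⁻¹ * (s i)⁻¹)⁻¹ * t₀⁻¹⁻¹ := by group
    show t₀⁻¹ * s i * t₀ * (s i)⁻¹ ∈ nr S i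
    rw [h2]
    exact hnorm _ ((nr S i).inv_mem (hc _ (hpr s hs))) _ ((pr S i).inv_mem ht₀)

lemma le_piS (U : Finset I) (S : Subgroup (∀ i, L i)) (hs : ∀ s ∈ S, ∀ i, i ∉ U → s i = 1) :
    S ≤ piS U S := fun s h => ⟨fun _ => ⟨s, h, rfl⟩, hs s h⟩

lemma mulSingle_mem_piS (U : Finset I) (S : Subgroup (∀ i, L i)) (i : I) (hi : i ∈ U) (a : L i)
    (ha : a ∈ pr S i) : (Pi.mulSingle i a : ∀ i, L i) ∈ piS U S := by
  refine ⟨fun j => ?_, fun j hj => ?_⟩
  · by_cases h : j = i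
    · subst h; simpa using ha
    · simpa [h] using one_mem _
  · have : j ≠ i := fun h => hj (h ▸ hi)
    simp [this]

/-- Extension of a character which vanishes on `e_i(N_i(S))`. -/
lemma extend_chr (S : Subgroup (∀ i, L i)) (i : I) (t₀ : L i) (ht₀ : t₀ ∈ pr S i)
    (hc : ∀ x ∈ pr S i, t₀ * x * t₀⁻¹ * x⁻¹ ∈ nr S i) (χ : Chr S)
    (hχ : ∀ (x : L i) (h : Pi.mulSingle i x ∈ S), val χ ⟨_, h⟩ = 0) :
    ∃ χ' : Chr (S ⊔ Subgroup.zpowers (Pi.mulSingle i t₀ : ∀ i, L i) : Subgroup (∀ i, L i)),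
      ∀ (s) (hs : s ∈ S), val χ' ⟨s, (le_sup_left : S ≤ S ⊔ Subgroup.zpowers _) hs⟩ =
        val χ ⟨s, hs⟩ := by
  set t : ∀ i, L i := Pi.mulSingle i t₀ with ht
  have sd := stepData S i t₀ ht₀ hc
  set S' : Subgroup (∀ i, L i) := S ⊔ Subgroup.zpowers t with hS'
  have hle : S ≤ S' := le_sup_left
  have htS' : t ∈ S' := (le_sup_right : Subgroup.zpowers t ≤ S') (Subgroup.mem_zpowers t)
  let t' : S' := ⟨t, htS'⟩
  let e : S.subgroupOf S' →* S :=
    { toFun := fun x => ⟨x.1.1, x.2⟩, map_one' := rfl, map_mul' := fun _ _ => rfl }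
  let f : S.subgroupOf S' →* Multiplicative ℝ := (MonoidHom.toAdditiveLeft.symm χ).comp e
  have hfv : ∀ x : S.subgroupOf S', f x = Multiplicative.ofAdd (val χ ⟨x.1.1, x.2⟩) :=
    fun _ => rfl
  obtain ⟨F, hF, -⟩ := extend_hom (S.subgroupOf S') t' (fun x hx => sd.n1 _ hx)
    (fun x hx => sd.n2 _ hx)
    (by
      intro g
      obtain ⟨s, hs, k, hk⟩ := mem_sup_zpowers S t sd.n1 sd.n2 g.1 g.2
      refine ⟨⟨s, hle hs⟩, hs, k, ?_⟩
      ext1
      simpa using hk)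
    f
    (by
      intro x hx
      rw [hfv, hfv]
      congr 1
      have h := mulSingle_comm i t₀ x.1
      have hm : (Pi.mulSingle i (t₀ * x.1 i * t₀⁻¹ * (x.1 i)⁻¹) : ∀ i, L i) ∈ S :=
        hc _ ⟨x.1, hx, rfl⟩
      have h1 : (⟨(t' * x * t'⁻¹ : S').1, sd.n1 _ hx⟩ : S) =
          ⟨_, hm⟩ * ⟨x.1, hx⟩ := by
        ext1
        have h0 : t * x.1 * t⁻¹ =
            (Pi.mulSingle i (t₀ * x.1 i * t₀⁻¹ * (x.1 i)⁻¹) : ∀ i, L i) * x.1 := by
          rw [← h, ht]; group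
        exact h0
      rw [h1, val_mul, hχ _ hm, zero_add])
    1
    (by
      intro z hz
      rw [hfv, one_zpow]
      have hz1 : ((t' ^ z : S') : ∀ i, L i) = Pi.mulSingle i (t₀ ^ z) := by
        show (t ^ z : ∀ i, L i) = _
        ext j
        by_cases h : j = i
        · subst h; simp [ht]
        · simp [ht, h]
      have hz2 : (Pi.mulSingle i (t₀ ^ z) : ∀ i, L i) ∈ S := by rw [← hz1]; exact hz
      have h1 : (⟨((t' ^ z : S') : ∀ i, L i), hz⟩ : S) = ⟨_, hz2⟩ := by ext1; exact hz1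
      rw [h1, hχ _ hz2]; rfl)
  refine ⟨MonoidHom.toAdditiveLeft F, fun s hs => ?_⟩
  have := hF ⟨s, hle hs⟩ hs
  show Multiplicative.toAdd (F ⟨s, hle hs⟩) = _
  rw [this, hfv]; rfl

/-- The projection to the infinite cyclic group in the case of infinite order. -/
lemma exists_psi (S : Subgroup (∀ i, L i)) (i : I) (t₀ : L i) (ht₀ : t₀ ∈ pr S i)
    (hc : ∀ x ∈ pr S i, t₀ * x * t₀⁻¹ * x⁻¹ ∈ nr S i)
    (hinf : ∀ e : ℤ, (Pi.mulSingle i t₀ : ∀ i, L i) ^ e ∈ S → e = 0) :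
    ∃ ψ : (S ⊔ Subgroup.zpowers (Pi.mulSingle i t₀ : ∀ i, L i) : Subgroup (∀ i, L i)) →*
        Multiplicative ℤ,
      SES (Subgroup.inclusion (le_sup_left : S ≤ S ⊔ Subgroup.zpowers _)) ψ ∧
      ψ ⟨Pi.mulSingle i t₀, (le_sup_right : Subgroup.zpowers _ ≤ S ⊔ Subgroup.zpowers _)
        (Subgroup.mem_zpowers _)⟩ = Multiplicative.ofAdd 1 := by
  set t : ∀ i, L i := Pi.mulSingle i t₀ with ht
  have sd := stepData S i t₀ ht₀ hc
  set S' : Subgroup (∀ i, L i) := S ⊔ Subgroup.zpowers t with hS'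
  have hle : S ≤ S' := le_sup_left
  have htS' : t ∈ S' := (le_sup_right : Subgroup.zpowers t ≤ S') (Subgroup.mem_zpowers t)
  let t' : S' := ⟨t, htS'⟩
  have hel : ∀ g : S', ∃ x ∈ S.subgroupOf S', ∃ k : ℤ, g = x * t' ^ k := by
    intro g
    obtain ⟨s, hs, k, hk⟩ := mem_sup_zpowers S t sd.n1 sd.n2 g.1 g.2
    refine ⟨⟨s, hle hs⟩, hs, k, ?_⟩
    ext1
    simpa using hk
  obtain ⟨F, hF, hFt⟩ := extend_hom (S.subgroupOf S') t' (fun x hx => sd.n1 _ hx)
    (fun x hx => sd.n2 _ hx) hel (1 : S.subgroupOf S' →* Multiplicative ℤ)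
    (by intro x hx; rfl) (Multiplicative.ofAdd 1)
    (by
      intro z hz
      have : z = 0 := hinf z (by simpa [Subgroup.mem_subgroupOf] using hz)
      subst this; simp)
  refine ⟨F, ⟨Subgroup.inclusion_injective hle, ?_, ?_⟩, hFt⟩
  · intro m
    refine ⟨t' ^ (Multiplicative.toAdd m), ?_⟩
    rw [map_zpow, hFt, ← ofAdd_zsmul]; simp
  · intro g
    constructor
    · intro hg
      obtain ⟨x, hx, k, rfl⟩ := hel g
      rw [map_mul, hF x hx, map_zpow, hFt, ← ofAdd_zsmul] at hg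
      have hk : k = 0 := by
        have := congrArg Multiplicative.toAdd hg
        simpa using this
      subst hk
      exact ⟨⟨x.1, hx⟩, by ext1; simp⟩
    · rintro ⟨s, rfl⟩
      exact hF _ s.2

theorem step (h1 : SetupUpStatement) (h2 : KernelStatement) (h3 : HemiStatement)
    (h4 : FinStepStatement) (h5 : FpfiStatement) (h6 : FpresStatement) : StepStatement := by
  intro k _ _ n hA I _ _ L _ U S hS i hi t₀ ht₀ hc hS'
  set t : ∀ i, L i := Pi.mulSingle i t₀ with ht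
  have sd := stepData S i t₀ ht₀ hc
  set S' : Subgroup (∀ i, L i) := S ⊔ Subgroup.zpowers t with hS'def
  have hle : S ≤ S' := le_sup_left
  have htS' : t ∈ S' := (le_sup_right : Subgroup.zpowers t ≤ S') (Subgroup.mem_zpowers t)
  have hpiS' : S' ≤ piS U S := by
    refine sup_le (le_piS U S hS.supp) ?_
    rw [Subgroup.zpowers_le]
    exact mulSingle_mem_piS U S i hi t₀ ht₀
  obtain ⟨hset', hpi, hpr⟩ := h1 k n I L U S S' hS hle hpiS'
  obtain ⟨hFP', hB'⟩ := hS'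
  obtain ⟨F', hF'⟩ := (h6 _ n _).1 hFP'
  -- the condition (b) for the extended characters
  have hcond : ∀ (χ : Chr S), CondB n U S χ → ∀ χ' : Chr S',
      (∀ (s) (hs : s ∈ S), val χ' ⟨s, hle hs⟩ = val χ ⟨s, hs⟩) → CondB n U S' χ' := by
    intro χ hχ χ' hχ' J hJ hJn
    obtain ⟨s, hs1, hs2⟩ := hχ J hJ hJn
    exact ⟨⟨s.1, hle s.2⟩, hs1, by rw [hχ' s.1 s.2]; exact hs2⟩
  by_cases hfin : ∃ e : ℤ, e ≠ 0 ∧ t ^ e ∈ S
  · -- finite case
    have hnorm : (S.subgroupOf S').Normal := by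
      constructor
      intro x hx g
      obtain ⟨s, hs, k, hk⟩ := mem_sup_zpowers S t sd.n1 sd.n2 g.1 g.2
      show g.1 * x.1 * g.1⁻¹ ∈ S
      rw [hk]
      have : s * t ^ k * x.1 * (s * t ^ k)⁻¹ = s * (t ^ k * x.1 * (t ^ k)⁻¹) * s⁻¹ := by group
      rw [this]
      exact S.mul_mem (S.mul_mem hs (conj_zpow_mem S t sd.n1 sd.n2 k _ hx)) (S.inv_mem hs)
    obtain ⟨e, he, hte⟩ := hfin
    have hQ : Finite (S' ⧸ S.subgroupOf S') := by
      have hpos : 0 < |e| := abs_pos.2 he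
      let g : Fin (|e|.toNat) → S' ⧸ S.subgroupOf S' := fun m =>
        QuotientGroup.mk ((⟨t, htS'⟩ : S') ^ (m : ℕ))
      refine Finite.of_surjective g ?_
      intro x
      obtain ⟨y, rfl⟩ := QuotientGroup.mk_surjective x
      obtain ⟨s, hs, k, hk⟩ := mem_sup_zpowers S t sd.n1 sd.n2 y.1 y.2
      have h1 : 0 ≤ k % |e| := Int.emod_nonneg _ hpos.ne'
      have h2 : k % |e| < |e| := Int.emod_lt_of_pos _ hpos
      refine ⟨⟨(k % |e|).toNat, by omega⟩, ?_⟩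
      rw [QuotientGroup.eq]
      show ((((⟨t, htS'⟩ : S') ^ ((k % |e|).toNat))⁻¹ * y : S') : ∀ i, L i) ∈ S
      have h3 : ((((⟨t, htS'⟩ : S') ^ ((k % |e|).toNat))⁻¹ * y : S') : ∀ i, L i) =
          t ^ (-(k % |e|)) * s * (t ^ (-(k % |e|)))⁻¹ * t ^ (-(k % |e|) + k) := by
        have h4 : ((((⟨t, htS'⟩ : S') ^ ((k % |e|).toNat))⁻¹ * y : S') : ∀ i, L i) =
            (t ^ ((k % |e|).toNat))⁻¹ * y.1 := rfl
        rw [h4, hk, ← zpow_natCast, Int.toNat_of_nonneg h1, zpow_add, zpow_neg]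
        group
      rw [h3]
      refine S.mul_mem (conj_zpow_mem S t sd.n1 sd.n2 _ _ hs) ?_
      have h5 : -(k % |e|) + k = |e| * (k / |e|) := by
        have := Int.emod_add_mul_ediv k |e|
        linarith
      rw [h5, zpow_mul]
      refine S.zpow_mem ?_ _
      rcases abs_choice e with h | h
      · rw [h]; exact hte
      · rw [h, zpow_neg]; exact S.inv_mem hte
    have hses : SES (Subgroup.inclusion hle) (QuotientGroup.mk' (S.subgroupOf S')) := by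
      refine ⟨Subgroup.inclusion_injective hle, QuotientGroup.mk'_surjective _, fun g => ?_⟩
      rw [QuotientGroup.mk'_apply, QuotientGroup.eq_one_iff]
      constructor
      · intro hg; exact ⟨⟨g.1, hg⟩, rfl⟩
      · rintro ⟨s, rfl⟩; exact s.2
    refine ⟨?_, ?_⟩
    · refine h5 k S S' (Subgroup.inclusion hle) (Subgroup.inclusion_injective hle) ?_ n hFP'
      have : (Subgroup.inclusion hle).range = S.subgroupOf S' := by
        ext g
        constructor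
        · rintro ⟨s, rfl⟩; exact s.2
        · intro hg; exact ⟨⟨g.1, hg⟩, rfl⟩
      rw [this]
      exact Subgroup.finiteIndex_of_finite_quotient
    · intro χ hχ F hF
      by_cases hA' : ∃ i ∈ U, ∃ (x : L i) (h : Pi.mulSingle i x ∈ S), val χ ⟨_, h⟩ ≠ 0
      · exact hA I L U S hS χ hχ hA' F hF
      · push Not at hA'
        obtain ⟨χ', hχ'⟩ := extend_chr S i t₀ ht₀ hc χ (fun x h => hA' i hi x h)
        have hP := hB' χ' (hcond χ hχ χ' hχ') F' hF'
        have := h4 k S S' _ (Subgroup.inclusion hle) _ hses χ' n F F' hF hF' hP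
        have hres : χ'.res (Subgroup.inclusion hle) = χ := by
          ext s
          exact hχ' (Additive.toMul s).1 (Additive.toMul s).2
        rwa [hres] at this
  · -- infinite case
    have hinf : ∀ e : ℤ, t ^ e ∈ S → e = 0 := by
      intro e he
      by_contra h
      exact hfin ⟨e, h, he⟩
    obtain ⟨ψ, hψ, hψt⟩ := exists_psi S i t₀ ht₀ hc hinf
    have hψS : ∀ (s) (hs : s ∈ S), ψ ⟨s, hle hs⟩ = 1 := fun s hs =>
      (hψ.ex _).2 ⟨⟨s, hs⟩, rfl⟩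
    -- psi is non zero on all K_J(S')
    have hJ : ∀ J, J ⊆ U → J.card ≤ n → ∃ s : S', (∀ j ∈ J, (s : ∀ i, L i) j = 1) ∧
        val (intChr ψ) s ≠ 0 := by
      intro J hJU hJn
      obtain ⟨e, he0, -, he⟩ := Subgroup.exists_pow_mem_of_relIndex_ne_zero (hS.a2 J hJU hJn)
        (mulSingle_mem_piS U S i hi t₀ ht₀)
      have hker : (kerJ L J).Normal := by
        constructor
        intro x hx g j hj
        simp [hx j hj]
      obtain ⟨s, hs, y, hy, hsy⟩ := Subgroup.mem_sup_of_normal_right.1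
        (Subgroup.mem_inf.1 he).1
      have hsy' : s⁻¹ * t ^ e = y := by
        rw [eq_comm, eq_inv_mul_iff_mul_eq]; exact hsy
      have hs' : s ∈ S' := hle hs
      have hs1 : s⁻¹ ∈ S' := S'.inv_mem hs'
      have ht1 : t ^ e ∈ S' := S'.pow_mem htS' e
      have hmem : s⁻¹ * t ^ e ∈ S' := S'.mul_mem hs1 ht1
      refine ⟨⟨s⁻¹ * t ^ e, hmem⟩, fun j hj => ?_, ?_⟩
      · show (s⁻¹ * t ^ e) j = 1
        rw [hsy']; exact hy j hj
      · have h1 : (⟨s⁻¹ * t ^ e, hmem⟩ : S') =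
            (⟨s, hs'⟩ : S')⁻¹ * (⟨t, htS'⟩ : S') ^ e := rfl
        rw [h1, val_mul, val_inv, val_pow]
        have h2 : val (intChr ψ) (⟨s, hle hs⟩ : S') = 0 := by
          rw [val_intChr, hψS s hs]; simp
        have h3 : val (intChr ψ) (⟨t, htS'⟩ : S') = 1 := by
          rw [val_intChr, hψt]; simp
        rw [h2, h3, neg_zero, zero_add, mul_one]
        exact_mod_cast he0.ne'
    have hcase : ∀ χ' : Chr S', (∀ s : S', val (intChr ψ) s ≠ 0 → val χ' s ≠ 0) →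
        Push F'.d χ' n := by
      intro χ' hχ'
      refine hA I L U S' hset' χ' ?_ ⟨i, hi, t₀, htS', ?_⟩ F' hF'
      · intro J hJU hJn
        obtain ⟨s, hs1, hs2⟩ := hJ J hJU hJn
        exact ⟨s, hs1, hχ' s hs2⟩
      · apply hχ'
        rw [val_intChr, hψt]; simp
    refine ⟨?_, ?_⟩
    · refine h2 k S S' _ ψ hψ n F' hF' (hcase _ fun s hs => hs) (hcase _ fun s hs => ?_)
      rw [val_neg]; exact neg_ne_zero.2 hs
    · intro χ hχ F hF
      by_cases hA' : ∃ i ∈ U, ∃ (x : L i) (h : Pi.mulSingle i x ∈ S), val χ ⟨_, h⟩ ≠ 0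
      · exact hA I L U S hS χ hχ hA' F hF
      · push Not at hA'
        obtain ⟨χ', hχ'⟩ := extend_chr S i t₀ ht₀ hc χ (fun x h => hA' i hi x h)
        have hres : χ'.res (Subgroup.inclusion hle) = χ := by
          ext s
          exact hχ' (Additive.toMul s).1 (Additive.toMul s).2
        have := h3 k S S' (Subgroup.inclusion hle) ψ hψ χ' n F F' hF hF' (fun lam => by
          refine hB' _ (hcond χ hχ _ ?_) F' hF'
          intro s hs
          rw [val_add, val_smul, hχ' s hs, val_intChr, hψS s hs]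
          simp)
        rwa [hres] at this

end step

end Pool.Agent.Lib.MP_b1a3a4_al.MVS.H45
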